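import Mathlib
import Pool.Agent.Y4.P.Jobs

/-!
# Project P: pull-backs of the determinant form belong to the ring
-/

set_option autoImplicit false
set_option linter.unusedSectionVars false

namespace Pool.Agent.Y220.P

open Matrix Module Pool.Agent.Y90 Pool.Agent.Y4.P Pool.Agent.W437.HC Pool.Agent.W437.HD
  Pool.Agent.TH504.CB Pool.Agent.W522.U
open Pool.Agent.W548.Odd hiding cv
open Pool.Agent.H204R3.CM (IsHodge)
open Pool.Agent.W437.HP (cK cK_mul cK_one)

noncomputable section

section reg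

variable {K : IntermediateField ℚ ℂ} {m : ℕ} (β : Basis (Fin m) ℚ K) {I J N : Type}

theorem repr_mul_sum (a x : K) (i : Fin m) :
    β.repr (a * x) i = ∑ k, β.repr (a * β k) i * β.repr x k := by
  conv_lhs => rw [← β.sum_repr x, Finset.mul_sum, map_sum, Finsupp.finsetSum_apply]
  refine Finset.sum_congr rfl fun k _ => ?_
  rw [mul_smul_comm, map_smul, Finsupp.smul_apply, smul_eq_mul, mul_comm]

theorem reg_mul_co [Fintype N] (A : Matrix I N K) (X : Matrix N J K) :
    co β (A * X) = reg β A * co β X := by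
  ext p j
  rw [Matrix.mul_apply, Fintype.sum_prod_type]
  unfold co reg
  simp only [Matrix.of_apply]
  rw [Matrix.mul_apply, map_sum, Finsupp.finsetSum_apply]
  exact Finset.sum_congr rfl fun n _ => repr_mul_sum β _ _ _

theorem reg_mul [Fintype N] (A : Matrix I N K) (X : Matrix N J K) :
    reg β (A * X) = reg β A * reg β X := by
  ext p q
  rw [Matrix.mul_apply, Fintype.sum_prod_type]
  unfold reg
  simp only [Matrix.of_apply]
  rw [Matrix.mul_apply, Finset.sum_mul, map_sum, Finsupp.finsetSum_apply]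
  refine Finset.sum_congr rfl fun n _ => ?_
  rw [mul_assoc]
  exact repr_mul_sum β _ _ _

theorem reg_one [DecidableEq N] : reg β (1 : Matrix N N K) = 1 := by
  ext p q
  unfold reg
  rw [Matrix.of_apply, Matrix.one_apply, Matrix.one_apply]
  by_cases h1 : p.1 = q.1
  · rw [if_pos h1, one_mul, Basis.repr_self_apply]
    by_cases h2 : q.2 = p.2
    · rw [if_pos h2, if_pos (Prod.ext h1 h2.symm)]
    · rw [if_neg h2, if_neg (fun h => h2 (by rw [h]))]
  · rw [if_neg h1, if_neg (fun h => h1 (by rw [h])), zero_mul, map_zero]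
    rfl

theorem reg_add (A B : Matrix I J K) : reg β (A + B) = reg β A + reg β B := by
  ext p q
  simp only [reg, Matrix.of_apply, Matrix.add_apply, add_mul, map_add, Finsupp.add_apply]

theorem reg_zero : reg β (0 : Matrix I J K) = 0 := by
  ext p q
  simp only [reg, Matrix.of_apply, Matrix.zero_apply, zero_mul, map_zero, Finsupp.zero_apply]

/-- The action of the field. -/
def actK (N : Type) [Fintype N] [DecidableEq N] : K →+* Module.End ℚ (N × Fin m → ℚ) where
  toFun a := Matrix.toLin' (reg β (a • (1 : Matrix N N K)))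
  map_one' := by
    rw [one_smul, reg_one, Matrix.toLin'_one]
    rfl
  map_mul' a b := by
    have h1 : (a * b) • (1 : Matrix N N K) = (a • (1 : Matrix N N K)) * (b • (1 : Matrix N N K)) := by
      rw [smul_mul_smul_comm, Matrix.one_mul]
    rw [h1, reg_mul, Matrix.toLin'_mul]
    rfl
  map_zero' := by
    rw [zero_smul, reg_zero, map_zero]
  map_add' a b := by
    rw [add_smul, reg_add, map_add]

theorem co_cast (A : Matrix I J ℚ) (p : I × Fin m) (j : J) :
    co β (A.map (algebraMap ℚ K)) p j = A p.1 j * β.repr 1 p.2 := by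
  unfold co
  rw [Matrix.of_apply, Matrix.map_apply, Algebra.algebraMap_eq_smul_one, map_smul,
    Finsupp.smul_apply, smul_eq_mul]

theorem kap_mul_co [Fintype I] [DecidableEq I] (X : Matrix I J K) :
    kap β I * cK ℂ (co β X) = cx X := by
  ext i j
  rw [Matrix.mul_apply, Fintype.sum_prod_type]
  unfold kap cK co cx
  simp only [Matrix.of_apply, Matrix.map_apply]
  rw [Finset.sum_eq_single i]
  · simp only [if_true]
    have h1 := congrArg (algebraMap K ℂ) (β.sum_repr (X i j))
    rw [← h1, map_sum]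
    refine Finset.sum_congr rfl fun k _ => ?_
    rw [Algebra.smul_def, map_mul, mul_comm]
    congr 1
  · intro i' _ hi'
    refine Finset.sum_eq_zero fun k _ => ?_
    rw [if_neg (Ne.symm hi'), zero_mul]
  · intro h
    exact absurd (Finset.mem_univ i) h

theorem cx_mul_cast [Fintype N] (Q : Matrix I N K) (A : Matrix N J ℚ) :
    cx (Q * A.map (algebraMap ℚ K)) = cx Q * cK ℂ A := by
  unfold cx cK
  rw [Matrix.map_mul]
  congr 1

theorem cv_mulVec [Fintype J] (R : Matrix I J ℚ) (v : J → ℚ) :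
    cv (R *ᵥ v) = cK ℂ R *ᵥ cv v := by
  funext i
  simp [cv, mulVec, dotProduct, cK]

theorem blow_co {m : ℕ} (β : Basis (Fin m) ℚ K) [Fintype I] [Fintype J] (S : Matrix I I ℝ)
    (S' : Matrix J J ℝ) (A : Matrix I J ℚ) (h : cK ℝ A * S' = S * cK ℝ A) :
    blow m S * cK ℝ (co β (A.map (algebraMap ℚ K))) =
      cK ℝ (co β (A.map (algebraMap ℚ K))) * S' := by
  ext p j
  rw [Matrix.mul_apply, Matrix.mul_apply, Fintype.sum_prod_type]
  have e1 : ∀ (x : I) (y : Fin m), cK ℝ (co β (A.map (algebraMap ℚ K))) (x, y) j =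
      cK ℝ A x j * ((β.repr 1 y : ℚ) : ℝ) := by
    intro x y
    unfold cK
    rw [Matrix.map_apply, co_cast, Rat.cast_mul, Matrix.map_apply]
  have e2 : ∀ (j' : J), cK ℝ (co β (A.map (algebraMap ℚ K))) p j' =
      cK ℝ A p.1 j' * ((β.repr 1 p.2 : ℚ) : ℝ) := by
    intro j'
    unfold cK
    rw [Matrix.map_apply, co_cast, Rat.cast_mul, Matrix.map_apply]
  have h1 : ∀ x : I, ∑ y : Fin m, blow m S p (x, y) * cK ℝ (co β (A.map (algebraMap ℚ K))) (x, y) j =
      S p.1 x * cK ℝ A x j * ((β.repr 1 p.2 : ℚ) : ℝ) := by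
    intro x
    rw [Finset.sum_eq_single p.2]
    · rw [e1]
      unfold blow
      rw [Matrix.of_apply, if_pos rfl]
      ring
    · intro y _ hy
      unfold blow
      rw [Matrix.of_apply, if_neg (Ne.symm hy), zero_mul]
    · intro h'
      exact absurd (Finset.mem_univ _) h'
  rw [Finset.sum_congr rfl fun x _ => h1 x, ← Finset.sum_mul]
  have h2 : ∀ x : J, cK ℝ (co β (A.map (algebraMap ℚ K))) p x * S' x j =
      cK ℝ A p.1 x * S' x j * ((β.repr 1 p.2 : ℚ) : ℝ) := by
    intro x
    rw [e2]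
    ring
  rw [Finset.sum_congr rfl fun x _ => h2 x, ← Finset.sum_mul]
  congr 1
  have h3 := congrFun (congrFun h p.1) j
  rw [Matrix.mul_apply, Matrix.mul_apply] at h3
  exact h3.symm

end reg

section hom

variable {B B' : Type} [Fintype B] [DecidableEq B] [Fintype B'] [DecidableEq B']
  {J : Matrix B B ℝ} {J' : Matrix B' B' ℝ}

theorem DJ_of_real' {R : Matrix B' B ℚ} (h : cK ℝ R * J = J' * cK ℝ R) :
    cK ℂ R * DJ J = DJ J' * cK ℂ R := by
  have h4 : (cK ℝ R * J).map (fun x : ℝ => (x : ℂ)) =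
      (cK ℝ R).map (fun x : ℝ => (x : ℂ)) * J.map (fun x : ℝ => (x : ℂ)) :=
    Matrix.map_mul (f := Complex.ofRealHom)
  have h5 : (J' * cK ℝ R).map (fun x : ℝ => (x : ℂ)) =
      J'.map (fun x : ℝ => (x : ℂ)) * (cK ℝ R).map (fun x : ℝ => (x : ℂ)) :=
    Matrix.map_mul (f := Complex.ofRealHom)
  unfold DJ
  rw [Matrix.mul_smul, Matrix.smul_mul, ← cK_R, ← h4, ← h5, h]

end hom

theorem detK_apply {N : Type} [Fintype N] [DecidableEq N] {K : IntermediateField ℚ ℂ} {m : ℕ}
    (β : Basis (Fin m) ℚ K) (x : N → N × Fin m → ℂ) :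
    detK β x = Matrix.det (Matrix.of fun k => kap β N *ᵥ x k) := rfl

theorem altQ_detK {N B : Type} [Fintype N] [DecidableEq N] [Fintype B]
    {K : IntermediateField ℚ ℂ} {m : ℕ}
    (β : Basis (Fin m) ℚ K) (X : Matrix N B K) (v : N → B → ℚ) :
    altQ (detK (N := N) β) (fun k => co β X *ᵥ v k) =
      (Fintype.card (Equiv.Perm N) : ℂ) *
        Matrix.det (Matrix.of fun k j : N => (cx X *ᵥ cv (v k)) j) := by
  have h1 : ∀ k, kap β N *ᵥ cv (co β X *ᵥ v k) = cx X *ᵥ cv (v k) := by
    intro k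
    rw [cv_mulVec, mulVec_mulVec, kap_mul_co]
  have h2 : ∀ σ : Equiv.Perm N, detK β (fun k => cv (co β X *ᵥ v (σ k))) =
      ((Equiv.Perm.sign σ : ℤ) : ℂ) * Matrix.det (Matrix.of fun k j : N => (cx X *ᵥ cv (v k)) j) := by
    intro σ
    rw [detK_apply]
    have h3 : (Matrix.of fun k => kap β N *ᵥ cv (co β X *ᵥ v (σ k))) =
        (Matrix.of fun k j : N => (cx X *ᵥ cv (v k)) j).submatrix σ id := by
      ext i j
      rw [Matrix.of_apply, h1]
      rfl
    rw [h3, Matrix.det_permute]
  unfold altQ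
  have h4 : ∀ σ : Equiv.Perm N, ((Equiv.Perm.sign σ : ℤ) : ℂ) *
      detK β (fun k => cv (co β X *ᵥ v (σ k))) =
      Matrix.det (Matrix.of fun k j : N => (cx X *ᵥ cv (v k)) j) := by
    intro σ
    rw [h2, ← mul_assoc, ← Int.cast_mul]
    have h5 : ((Equiv.Perm.sign σ : ℤ)) * ((Equiv.Perm.sign σ : ℤ)) = 1 := by
      rw [← Units.val_mul, Int.units_mul_self]
      rfl
    rw [h5, Int.cast_one, one_mul]
  rw [Finset.sum_congr rfl fun σ _ => h4 σ, Finset.sum_const, nsmul_eq_mul, Finset.card_univ]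

/-- The pull-backs of the determinant form belong to the ring. -/
theorem jpull (hS : JStr) (hC : JCht) (hKi : JKill) : JPull := by
  intro V N _ _ _ _ K _ _ J M P Q w G Z h A hA
  obtain ⟨m, ⟨β⟩⟩ : ∃ m : ℕ, Nonempty (Basis (Fin m) ℚ K) := ⟨_, ⟨finBasis ℚ K⟩⟩
  have hm : finrank ℚ K = m := by rw [finrank_eq_card_basis β, Fintype.card_fin]
  obtain ⟨s1, s2, s3, s4, s5, s6, s7⟩ := hS V N K J M P Q w m β
  obtain ⟨T, i1, i2, i3, per, ch⟩ := hC (N × Fin m) (JB β J P Q) s1
  obtain ⟨⟨L, hL1, hL2, hL3⟩, hbal⟩ := hKi V N K J M P Q w m β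
  have hpol : IsPolarization per (fun v w => v ⬝ᵥ (MB β M P *ᵥ w)) :=
    ch.polar (MB β M P) s4 s5 s6
  have hav : St.IsAV per := (ch.av ⟨_, hpol⟩).isAV
  have hH : ∀ l, IsHodge per (ratA (detK (N := N) β) l) := ch.hodge_rat hL1 hL2 hL3
  let e : N ≃ Fin (Fintype.card N) := Fintype.equivFin N
  have hW : ∀ l, IsWeilClass per (Fintype.card N)
      ((ratA (detK (N := N) β) l).domDomCongr e) := by
    intro l
    refine ⟨isHodge_congr e (hH l), K, inferInstance, inferInstance, inferInstance, actK β N,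
      fun a => ?_, ?_, fun a v k k' => ?_⟩
    · obtain ⟨Ψ, hΨ⟩ := ch.hom ch (R := reg β (a • (1 : Matrix N N K))) (DJ_of_real' (s7 a))
      exact ⟨Ψ, fun v => hΨ v⟩
    · rw [finrank_fintype_fun_eq_card, Fintype.card_prod, Fintype.card_fin, hm]
    · have key : ∀ k, (ratA (detK (N := N) β) l).domDomCongr e
          (Function.update v k (actK β N a (v k))) =
          ratA (detK (N := N) β) l (Function.update (fun j => v (e j)) (e.symm k)
            (reg β (a • (1 : Matrix N N K)) *ᵥ (fun j => v (e j)) (e.symm k))) := by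
        intro k
        rw [AlternatingMap.domDomCongr_apply]
        congr 1
        funext j
        rw [Function.comp_apply]
        by_cases hj : j = e.symm k
        · subst hj
          rw [Equiv.apply_symm_apply, Function.update_self, Function.update_self]
          show _ = reg β (a • (1 : Matrix N N K)) *ᵥ v (e (e.symm k))
          rw [Equiv.apply_symm_apply]
          rfl
        · rw [Function.update_of_ne hj, Function.update_of_ne]
          intro h'
          exact hj (by rw [← h', Equiv.symm_apply_apply])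
      rw [key k, key k']
      exact hbal l a _ _ _
  -- the homomorphism
  have hRR : cK ℝ (co β (Q * A.map (algebraMap ℚ K))) * JR Z =
      JB β J P Q * cK ℝ (co β (Q * A.map (algebraMap ℚ K))) := by
    have h1 : cK ℝ A * JR Z = J * cK ℝ A := real_of_DJ (by rw [DJ_JR]; exact hA)
    rw [reg_mul_co, cK_mul, ← Matrix.mul_assoc, s3, Matrix.mul_assoc, Matrix.mul_assoc,
      blow_co β J (JR Z) A h1]
  obtain ⟨Ψ, hΨ⟩ := h.cht.hom ch (R := co β (Q * A.map (algebraMap ℚ K))) (DJ_of_real' hRR)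
  have hpull : ∀ l, WeilRing (perOne Z) N ((ratA (detK (N := N) β) l).compLinearMap
      (Matrix.toLin' (co β (Q * A.map (algebraMap ℚ K))))) := by
    intro l
    have h3 := WeilRing.weil (per := perOne Z) hav _ (hW l)
      (Matrix.toLin' (co β (Q * A.map (algebraMap ℚ K)))) ⟨Ψ, fun v => hΨ v⟩
    have h4 := h3.reindex e.symm
    have h5 : ((((ratA (detK (N := N) β) l).domDomCongr e).compLinearMap
        (Matrix.toLin' (co β (Q * A.map (algebraMap ℚ K))))).domDomCongr e.symm) =
        (ratA (detK (N := N) β) l).compLinearMap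
          (Matrix.toLin' (co β (Q * A.map (algebraMap ℚ K)))) := by
      ext v
      rw [AlternatingMap.domDomCongr_apply, AlternatingMap.compLinearMap_apply,
        AlternatingMap.domDomCongr_apply, AlternatingMap.compLinearMap_apply]
      congr 1
      funext k
      simp
    rw [← h5]
    exact h4
  obtain ⟨r, c, l, hl⟩ := altQ_expand (detK (N := N) β)
  have hc0 : (Fintype.card (Equiv.Perm N) : ℂ) ≠ 0 := by exact_mod_cast Fintype.card_ne_zero
  have h1 : (fun v : N → Fin G ⊕ Fin G → ℚ =>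
      Matrix.det (Matrix.of fun k j : N => ((cx Q * cK ℂ A) *ᵥ cv (v k)) j)) =
      (Fintype.card (Equiv.Perm N) : ℂ)⁻¹ • ∑ j, c j • fun v : N → Fin G ⊕ Fin G → ℚ =>
        ((((ratA (detK (N := N) β) (l j)).compLinearMap
          (Matrix.toLin' (co β (Q * A.map (algebraMap ℚ K))))) v : ℚ) : ℂ) := by
    funext v
    have h2 := altQ_detK β (Q * A.map (algebraMap ℚ K)) v
    rw [cx_mul_cast] at h2
    rw [Pi.smul_apply, Finset.sum_apply, smul_eq_mul]
    have h3 := hl (fun k => co β (Q * A.map (algebraMap ℚ K)) *ᵥ v k)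
    rw [h2] at h3
    rw [eq_inv_mul_iff_mul_eq₀ hc0, h3]
    rfl
  rw [h1]
  refine Submodule.smul_mem _ _ (Submodule.sum_mem _ fun j _ => Submodule.smul_mem _ _ ?_)
  exact RC_of (hpull (l j))

end
end Pool.Agent.Y220.P
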